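import Pool.Agent.Lib.MP_60829e_nt.QT.Tup
import Pool.Agent.Lib.MP_60829e_nt.HF.Fin

/-!
# Tuples and rational functions: the final statements (MP_60829e_nt)
-/

open Module MvPolynomial

namespace MP60829e.QT

open MP60829e.ST (Qa Lsp Lt)

variable {N : ℕ} (lam : Fin N → ℂ) (halg : ∀ i, IsAlgebraic ℚ (Complex.exp (lam i)))
  (hli : LinearIndependent ℚ lam)

include halg hli in
/-- (Q) for a subfamily, in the form used by `ratio`. -/
theorem quot_sub (s : Finset (Fin N)) (W : Submodule Qa ℂ) (hW : FiniteDimensional Qa W) (r : ℕ)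
    (h : ∀ i : Fin s.card, r ≤ finrank Qa ↥(Vx W (lam (s.equivFin.symm i)))) :
    s.card * r ≤ finrank Qa W ^ 2 := by
  have h1 := MP60829e.HF.baker_fin lam halg hli
  refine quot_aux (fun i => lam (s.equivFin.symm i)) (fun i => lam (s.equivFin.symm i))
    (fun _ => 0) (fun i => by simp) ?_ (fun i => Submodule.subset_span (halg _)) W r h
  exact h1.comp _ (Subtype.val_injective.comp s.equivFin.symm.injective)

include halg hli in
/-- (Q). -/
theorem quotF (W : Submodule Qa ℂ) (hW : FiniteDimensional Qa W) (r : ℕ) (s : Finset (Fin N))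
    (h : ∀ i ∈ s, r ≤ finrank Qa ↥(Vx W (lam i))) : s.card * r ≤ finrank Qa W ^ 2 :=
  quot_sub lam halg hli s W hW r (fun i => h _ (s.equivFin.symm i).2)

include halg hli in
/-- (R). -/
theorem ratioF {m D : ℕ} (hm : 1 ≤ m) (hD : 1 ≤ D) (θ : Fin m → ℂ) (s : Finset (Fin N))
    (h : ∀ i ∈ s, ∃ A B : MvPolynomial (Fin m) Qa, A.totalDegree ≤ D ∧ B.totalDegree ≤ D ∧
      aeval θ B ≠ 0 ∧ aeval θ B * lam i = aeval θ A) :
    s.card ≤ 2 * (2 * m * (Nat.log 2 (m * D) + 3) * D + 1) ^ m :=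
  ratio hm hD (fun i => lam (s.equivFin.symm i)) (quot_sub lam halg hli s) θ
    (fun i => h _ (s.equivFin.symm i).2)

include halg hli in
/-- (R) for `m = 1`. -/
theorem ratio_oneF {D : ℕ} (hD : 1 ≤ D) (θ : Fin 1 → ℂ) (s : Finset (Fin N))
    (h : ∀ i ∈ s, ∃ A B : MvPolynomial (Fin 1) Qa, A.totalDegree ≤ D ∧ B.totalDegree ≤ D ∧
      aeval θ B ≠ 0 ∧ aeval θ B * lam i = aeval θ A) :
    s.card ≤ 4 * D :=
  ratio_one hD (fun i => lam (s.equivFin.symm i)) (quot_sub lam halg hli s) θ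
    (fun i => h _ (s.equivFin.symm i).2)

include halg hli in
/-- Tuples, for a given space. -/
theorem tupW (W : Submodule Qa ℂ) (hW : FiniteDimensional Qa W) (w : ℕ) (hw : finrank Qa W ≤ w)
    (s : ℕ) (T : Finset (Fin (s + 1) → Fin N))
    (hT : ∀ j ∈ T, ∃ P : MvPolynomial (Fin (s + 1)) ℂ, P ≠ 0 ∧ (∀ t, P.degreeOf t ≤ 1) ∧
      (∀ e, P.coeff e ∈ W) ∧ eval (fun t => lam (j t)) P = 0) :
    3 * T.card ≤ w ^ 2 * (4 ^ (s + 1) - 1) * N ^ s := by
  have h2 := bad_bound lam (fun W hW r s h => quotF lam halg hli W hW r s h) W w hw s T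
    (fun j hj => by
      obtain ⟨P, hP, h1, h2, h3⟩ := hT j hj
      exact ⟨P, hP, ⟨h1, h2⟩, h3⟩)
  have h3 : w ^ 2 * (4 ^ (s + 1) - 1) * N ^ s + w ^ 2 * N ^ s = w ^ 2 * 4 ^ (s + 1) * N ^ s := by
    have h4 : 4 ^ (s + 1) - 1 + 1 = 4 ^ (s + 1) :=
      Nat.sub_add_cancel (Nat.one_le_pow _ _ (by norm_num))
    calc w ^ 2 * (4 ^ (s + 1) - 1) * N ^ s + w ^ 2 * N ^ s
        = w ^ 2 * (4 ^ (s + 1) - 1 + 1) * N ^ s := by ring
      _ = w ^ 2 * 4 ^ (s + 1) * N ^ s := by rw [h4]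
  omega

include halg hli in
/-- Tuples, for functions of the first `m` logarithms. -/
theorem tupF (m s w : ℕ) (f : Fin w → (Fin m → ℂ) → ℂ)
    (T : Finset ((Fin m → Fin N) × (Fin (s + 1) → Fin N)))
    (hT : ∀ p ∈ T, ∃ P : MvPolynomial (Fin (s + 1)) ℂ, P ≠ 0 ∧ (∀ t, P.degreeOf t ≤ 1) ∧
      (∀ e, P.coeff e ∈ Submodule.span Qa (Set.range fun t => f t (fun i => lam (p.1 i)))) ∧
      eval (fun t => lam (p.2 t)) P = 0) :
    3 * T.card ≤ w ^ 2 * (4 ^ (s + 1) - 1) * N ^ (m + s) := by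
  classical
  set c := w ^ 2 * (4 ^ (s + 1) - 1) * N ^ s / 3 with hc
  have h1 := fiber_bound T c ?_
  · rw [Fintype.card_fun, Fintype.card_fin, Fintype.card_fin] at h1
    calc 3 * T.card ≤ 3 * (c * N ^ m) := by gcongr
      _ = (c * 3) * N ^ m := by ring
      _ ≤ (w ^ 2 * (4 ^ (s + 1) - 1) * N ^ s) * N ^ m :=
          Nat.mul_le_mul_right _ (Nat.div_mul_le_self _ _)
      _ = w ^ 2 * (4 ^ (s + 1) - 1) * N ^ (m + s) := by rw [pow_add]; ring
  intro i u hu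
  set W : Submodule Qa ℂ := Submodule.span Qa (Set.range fun t => f t (fun j => lam (i j))) with hW
  have hfd : FiniteDimensional Qa W := FiniteDimensional.span_of_finite Qa (Set.finite_range _)
  have hw : finrank Qa W ≤ w := by
    refine (finrank_range_le_card (R := Qa) (fun t => f t (fun j => lam (i j)))).trans ?_
    simp
  have h2 : 3 * u.card ≤ w ^ 2 * (4 ^ (s + 1) - 1) * N ^ s := by
    refine tupW lam halg hli W hfd w hw s u (fun j hj => ?_)
    obtain ⟨P, hP, h1, h2, h3⟩ := hT _ (hu j hj)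
    exact ⟨P, hP, h1, h2, h3⟩
  rw [hc, Nat.le_div_iff_mul_le (by norm_num)]
  omega

end MP60829e.QT
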