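import Pool.Agent.Lib.MP_60829e_nt.HF.GrowG

/-!
# Quotients: the numbers `x` of `k + k L` with a large space `{v ∈ W : x v ∈ W}`
(MP_60829e_nt, note of helper44, Dec 4)
-/

open Module

namespace MP60829e.QT

open MP60829e.ST (Qa Lsp Lt)

/-- The space of the `v ∈ W` with `x v ∈ W`. -/
noncomputable def Vx (W : Submodule Qa ℂ) (x : ℂ) : Submodule Qa ℂ :=
  W ⊓ W.comap (LinearMap.mulLeft Qa x)

theorem finrank_map_le (W : Submodule Qa ℂ) [FiniteDimensional Qa W] (c : ℂ) :
    finrank Qa ↥(W.map (LinearMap.mulLeft Qa c)) ≤ finrank Qa W :=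
  Submodule.finrank_map_le _ _

theorem finrank_map_eq (W : Submodule Qa ℂ) {c : ℂ} (hc : c ≠ 0) :
    finrank Qa ↥(W.map (LinearMap.mulLeft Qa c)) = finrank Qa W :=
  (LinearEquiv.finrank_eq (Submodule.equivMapOfInjective (LinearMap.mulLeft Qa c)
    (fun _ _ h => mul_left_cancel₀ hc h) W)).symm

/-- Adding the spaces `x_i W` one by one. -/
theorem sup_le {N : ℕ} (W : Submodule Qa ℂ) [FiniteDimensional Qa W] (x : Fin N → ℂ) (r : ℕ)
    (h : ∀ i, r ≤ finrank Qa ↥(Vx W (x i))) (s : Finset (Fin N)) :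
    ∃ S : Submodule Qa ℂ, W ≤ S ∧ (∀ i ∈ s, W.map (LinearMap.mulLeft Qa (x i)) ≤ S) ∧
      FiniteDimensional Qa S ∧
      finrank Qa S + s.card * r ≤ finrank Qa W + s.card * finrank Qa W := by
  classical
  induction s using Finset.induction_on with
  | empty => exact ⟨W, le_rfl, by simp, inferInstance, by simp⟩
  | insert i s hi ih =>
    obtain ⟨S, hWS, hs, hfd, hle⟩ := ih
    have hrw : r ≤ finrank Qa W := (h i).trans (Submodule.finrank_mono inf_le_left)
    refine ⟨S ⊔ W.map (LinearMap.mulLeft Qa (x i)), hWS.trans le_sup_left, ?_, inferInstance, ?_⟩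
    · intro j hj
      rcases Finset.mem_insert.1 hj with rfl | hj
      · exact le_sup_right
      · exact (hs j hj).trans le_sup_left
    · have h1 := Submodule.finrank_sup_add_finrank_inf_eq S (W.map (LinearMap.mulLeft Qa (x i)))
      have h2 := finrank_map_le W (x i)
      rw [Finset.card_insert_of_notMem hi]
      by_cases hx : x i = 0
      · have h3 : W.map (LinearMap.mulLeft Qa (x i)) = ⊥ := by
          rw [eq_bot_iff]
          rintro _ ⟨w, -, rfl⟩
          simp [hx]
        rw [h3, sup_bot_eq]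
        nlinarith
      · have h4 : (Vx W (x i)).map (LinearMap.mulLeft Qa (x i))
            ≤ S ⊓ W.map (LinearMap.mulLeft Qa (x i)) := by
          rintro _ ⟨v, ⟨hv1, hv2⟩, rfl⟩
          exact ⟨hWS hv2, ⟨v, hv1, rfl⟩⟩
        have h5 := Submodule.finrank_mono h4
        rw [finrank_map_eq _ hx] at h5
        have h6 := h i
        nlinarith

/-- (Q) for elements `x_i = c_i + λ_i`. -/
theorem quot_aux {N : ℕ} (x lam : Fin N → ℂ) (c : Fin N → Qa) (hx : ∀ i, x i = c i + lam i)
    (hlam : LinearIndependent Qa lam) (hlog : ∀ i, lam i ∈ Lsp) (W : Submodule Qa ℂ)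
    [FiniteDimensional Qa W] (r : ℕ) (h : ∀ i, r ≤ finrank Qa ↥(Vx W (x i))) :
    N * r ≤ finrank Qa W ^ 2 := by
  classical
  rcases Nat.eq_zero_or_pos N with hN | hN
  · subst hN; simp
  have hrw : r ≤ finrank Qa W := (h ⟨0, hN⟩).trans (Submodule.finrank_mono inf_le_left)
  rcases Nat.lt_or_ge N (finrank Qa W) with hlt | hge
  · nlinarith
  obtain ⟨S, hWS, hs, hfd, hle⟩ := sup_le W x r h Finset.univ
  have h1 := MP60829e.HF.growG lam hlam hlog W hge le_rfl
  rcases h1 with h1 | h1
  swap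
  · omega
  have h2 : W * Submodule.span Qa (Set.range lam) ≤ S := by
    rw [Submodule.mul_le]
    intro w hw l hl
    induction hl using Submodule.span_induction with
    | mem l hl =>
      obtain ⟨i, rfl⟩ := hl
      have e : w * lam i = x i * w - (c i) • w := by
        rw [hx i, Algebra.smul_def]
        have : (algebraMap Qa ℂ) (c i) = (c i : ℂ) := rfl
        rw [this]; ring
      rw [e]
      exact S.sub_mem (hs i (Finset.mem_univ i) ⟨w, hw, rfl⟩) (S.smul_mem _ (hWS hw))
    | zero => simp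
    | add a b _ _ ha hb => rw [mul_add]; exact S.add_mem ha hb
    | smul a b _ hb => rw [mul_smul_comm]; exact S.smul_mem _ hb
  have h3 := Submodule.finrank_mono h2
  rw [Finset.card_univ, Fintype.card_fin] at hle
  obtain ⟨t, ht⟩ : ∃ t, N = finrank Qa W + t := ⟨N - finrank Qa W, by omega⟩
  have h4 : N - finrank Qa W = t := by omega
  rw [h4] at h1
  nlinarith

/-- An element of `k + k L` is `c + λ`. -/
theorem exists_split (x : ℂ) (hx : x ∈ Lt) : ∃ (c : Qa) (lam : ℂ), lam ∈ Lsp ∧ x = c + lam := by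
  have h : Lt = Submodule.span Qa {(1 : ℂ)} ⊔ Lsp := by
    unfold MP60829e.ST.Lt MP60829e.ST.Lsp
    rw [Submodule.span_union]
  rw [h] at hx
  obtain ⟨y, hy, z, hz, rfl⟩ := Submodule.mem_sup.1 hx
  obtain ⟨c, rfl⟩ := Submodule.mem_span_singleton.1 hy
  refine ⟨c, z, hz, ?_⟩
  rw [Algebra.smul_def]
  have : (algebraMap Qa ℂ) c = (c : ℂ) := rfl
  rw [this, mul_one]

/-- (Q). -/
theorem quot {N : ℕ} (x : Fin N → ℂ) (hx : ∀ i, x i ∈ Lt)
    (hli : LinearIndependent Qa (fun o : Option (Fin N) => o.elim 1 x)) (W : Submodule Qa ℂ)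
    (hW : FiniteDimensional Qa W) (r : ℕ) (h : ∀ i, r ≤ finrank Qa ↥(Vx W (x i))) :
    N * r ≤ finrank Qa W ^ 2 := by
  classical
  choose c lam hlam hxe using fun i => exists_split (x i) (hx i)
  refine quot_aux x lam c hxe ?_ hlam W r h
  rw [Fintype.linearIndependent_iff] at hli ⊢
  intro g hg i
  have h1 := hli (fun o => o.elim (-∑ i, g i * c i) g) ?_ (some i)
  · simpa using h1
  · rw [Fintype.sum_option]
    simp only [Option.elim_none, Option.elim_some]
    have h2 : ∑ i, g i • x i = ((∑ i, g i * c i : Qa) : ℂ) := by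
      calc ∑ i, g i • x i = ∑ i, ((g i * c i : Qa) : ℂ) + ∑ i, g i • lam i := by
            rw [← Finset.sum_add_distrib]
            refine Finset.sum_congr rfl fun i _ => ?_
            rw [hxe i, smul_add, Algebra.smul_def]
            rfl
        _ = ((∑ i, g i * c i : Qa) : ℂ) := by
            rw [hg, add_zero]
            push_cast
            rfl
    rw [h2, Algebra.smul_def]
    have : (algebraMap Qa ℂ) (-∑ i, g i * c i) = ((-∑ i, g i * c i : Qa) : ℂ) := rfl
    rw [this]
    push_cast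
    ring

end MP60829e.QT
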