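import Pool.Agent.Lib.MP_60829e_nt.QT.Quot

/-!
# Rational functions of given numbers (MP_60829e_nt, note of helper44, Dec 4)
-/

open Module MvPolynomial

namespace MP60829e.QT

open MP60829e.ST (Qa Lsp Lt)

/-- The values at `θ` of the polynomials of degree at most `M`. -/
noncomputable def Wd {m : ℕ} (θ : Fin m → ℂ) (M : ℕ) : Submodule Qa ℂ :=
  (restrictTotalDegree (Fin m) Qa M).map
    (aeval θ : MvPolynomial (Fin m) Qa →ₐ[Qa] ℂ).toLinearMap

theorem mem_Wd {m : ℕ} (θ : Fin m → ℂ) (M : ℕ) (x : ℂ) :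
    x ∈ Wd θ M ↔ ∃ p : MvPolynomial (Fin m) Qa, p.totalDegree ≤ M ∧ aeval θ p = x := by
  constructor
  · rintro ⟨p, hp, rfl⟩
    exact ⟨p, (mem_restrictTotalDegree _ _ _).1 hp, rfl⟩
  · rintro ⟨p, hp, rfl⟩
    exact ⟨p, (mem_restrictTotalDegree _ _ _).2 hp, rfl⟩

theorem Wd_le_span {m : ℕ} (θ : Fin m → ℂ) (M : ℕ) :
    Wd θ M ≤ Submodule.span Qa
      (Set.range fun a : Fin m → Fin (M + 1) => ∏ i, θ i ^ (a i : ℕ)) := by
  rintro x hx
  obtain ⟨p, hp, rfl⟩ := (mem_Wd θ M x).1 hx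
  rw [aeval_def, eval₂_eq']
  refine Submodule.sum_mem _ fun s hs => ?_
  have h1 : ∀ i, s i ≤ M := by
    intro i
    refine le_trans ?_ ((le_totalDegree hs).trans hp)
    by_cases hi : i ∈ s.support
    · exact Finset.single_le_sum (f := fun i => s i) (fun j _ => Nat.zero_le _) hi
    · rw [Finsupp.notMem_support_iff.1 hi]; exact Nat.zero_le _
  rw [← Algebra.smul_def]
  refine Submodule.smul_mem _ _ (Submodule.subset_span ⟨fun i => ⟨s i, by
    have := h1 i; omega⟩, rfl⟩)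

instance {m : ℕ} (θ : Fin m → ℂ) (M : ℕ) : FiniteDimensional Qa (Wd θ M) := by
  have : FiniteDimensional Qa ↥(Submodule.span Qa
      (Set.range fun a : Fin m → Fin (M + 1) => ∏ i, θ i ^ (a i : ℕ))) :=
    FiniteDimensional.span_of_finite Qa (Set.finite_range _)
  exact Submodule.finiteDimensional_of_le (Wd_le_span θ M)

theorem finrank_Wd_le {m : ℕ} (θ : Fin m → ℂ) (M : ℕ) : finrank Qa (Wd θ M) ≤ (M + 1) ^ m := by
  have : FiniteDimensional Qa ↥(Submodule.span Qa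
      (Set.range fun a : Fin m → Fin (M + 1) => ∏ i, θ i ^ (a i : ℕ))) :=
    FiniteDimensional.span_of_finite Qa (Set.finite_range _)
  refine (Submodule.finrank_mono (Wd_le_span θ M)).trans ?_
  refine (finrank_range_le_card (R := Qa)
    (fun a : Fin m → Fin (M + 1) => ∏ i, θ i ^ (a i : ℕ))).trans ?_
  simp

theorem one_le_finrank_Wd {m : ℕ} (θ : Fin m → ℂ) (M : ℕ) : 1 ≤ finrank Qa (Wd θ M) := by
  have h1 : (1 : ℂ) ∈ Wd θ M := (mem_Wd θ M 1).2 ⟨1, by simp, by simp⟩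
  rw [Nat.one_le_iff_ne_zero]
  intro h
  have h2 := (Submodule.finrank_eq_zero (S := Wd θ M)).1 h
  rw [h2, Submodule.mem_bot] at h1
  exact one_ne_zero h1

/-- A rational function of degree at most `D` of `θ` is a quotient in many ways. -/
theorem le_Vx_Wd {m : ℕ} (θ : Fin m → ℂ) {M D : ℕ} (hD : D ≤ M) (x : ℂ)
    (A B : MvPolynomial (Fin m) Qa) (hA : A.totalDegree ≤ D) (hB : B.totalDegree ≤ D)
    (hB0 : aeval θ B ≠ 0) (hx : aeval θ B * x = aeval θ A) :
    finrank Qa (Wd θ (M - D)) ≤ finrank Qa ↥(Vx (Wd θ M) x) := by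
  have hfd : FiniteDimensional Qa ↥(Vx (Wd θ M) x) := Submodule.finiteDimensional_of_le inf_le_left
  rw [← finrank_map_eq (Wd θ (M - D)) hB0]
  refine Submodule.finrank_mono ?_
  rintro _ ⟨v, hv, rfl⟩
  obtain ⟨p, hp, rfl⟩ := (mem_Wd θ _ _).1 hv
  refine ⟨(mem_Wd θ M _).2 ⟨B * p, ?_, ?_⟩, (mem_Wd θ M _).2 ⟨A * p, ?_, ?_⟩⟩
  · refine (totalDegree_mul _ _).trans ?_
    omega
  · rw [map_mul, LinearMap.mulLeft_apply]
  · refine (totalDegree_mul _ _).trans ?_
    omega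
  · rw [map_mul, LinearMap.mulLeft_apply, LinearMap.mulLeft_apply, ← hx]
    ring

/-- Doubling. -/
theorem exists_doubling (w : ℕ → ℕ) (h0 : 1 ≤ w 0) (J C : ℕ) (hJ : w J ≤ C) (hC : C ≤ 2 ^ J)
    (h1 : 1 ≤ J) : ∃ j, 1 ≤ j ∧ j ≤ J ∧ w j ≤ 2 * w (j - 1) := by
  by_contra hcon
  push Not at hcon
  have h : ∀ j, j ≤ J → 1 ≤ j → 2 ^ j < w j := by
    intro j
    induction j with
    | zero => intro _ h; omega
    | succ j ih =>
      intro hj _
      have h2 := hcon (j + 1) (by omega) hj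
      rw [Nat.add_sub_cancel] at h2
      rcases Nat.eq_zero_or_pos j with rfl | hj0
      · rw [zero_add, pow_one] at *
        omega
      · have h3 := ih (by omega) hj0
        rw [pow_succ]
        omega
  have := h J le_rfl h1
  omega

theorem pow_ineq {m D : ℕ} (hm : 1 ≤ m) (hD : 1 ≤ D) :
    (2 * m * (Nat.log 2 (m * D) + 3) * D + 1) ^ m ≤ 2 ^ (2 * m * (Nat.log 2 (m * D) + 3)) := by
  set L := Nat.log 2 (m * D) + 3 with hL
  have h1 : m * D < 2 ^ (L - 2) := by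
    have := Nat.lt_pow_succ_log_self (b := 2) (by norm_num) (m * D)
    rwa [show L - 2 = (Nat.log 2 (m * D)).succ by omega]
  have h2 : L < 2 ^ L := Nat.lt_two_pow_self
  have h3 : 2 ^ L = 4 * 2 ^ (L - 2) := by
    conv_lhs => rw [show L = 2 + (L - 2) by omega]
    rw [pow_add]; norm_num
  have h4 : 2 * m * L * D + 1 ≤ 4 ^ L := by
    have h5 : (4 : ℕ) ^ L = 2 ^ L * 2 ^ L := by
      rw [← mul_pow]
      norm_num
    rw [h5]
    nlinarith
  calc (2 * m * L * D + 1) ^ m ≤ (4 ^ L) ^ m := Nat.pow_le_pow_left h4 m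
    _ = 2 ^ (2 * m * L) := by
        rw [← pow_mul, show (4 : ℕ) = 2 ^ 2 by norm_num, ← pow_mul]
        congr 1; ring

/-- (R), from (Q). -/
theorem ratio {N m D : ℕ} (hm : 1 ≤ m) (hD : 1 ≤ D) (x : Fin N → ℂ)
    (hQ : ∀ W : Submodule Qa ℂ, FiniteDimensional Qa W → ∀ r : ℕ,
      (∀ i, r ≤ finrank Qa ↥(Vx W (x i))) → N * r ≤ finrank Qa W ^ 2) (θ : Fin m → ℂ)
    (h : ∀ i, ∃ A B : MvPolynomial (Fin m) Qa, A.totalDegree ≤ D ∧ B.totalDegree ≤ D ∧
      aeval θ B ≠ 0 ∧ aeval θ B * x i = aeval θ A) :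
    N ≤ 2 * (2 * m * (Nat.log 2 (m * D) + 3) * D + 1) ^ m := by
  set J := 2 * m * (Nat.log 2 (m * D) + 3) with hJ
  have hJ1 : 1 ≤ J := by
    rw [hJ]
    have : 1 ≤ Nat.log 2 (m * D) + 3 := by omega
    nlinarith
  obtain ⟨j, hj1, hjJ, hj⟩ := exists_doubling (fun j => finrank Qa (Wd θ (j * D)))
    (one_le_finrank_Wd θ _) J ((J * D + 1) ^ m) (finrank_Wd_le θ _) (pow_ineq hm hD) hJ1
  have h1 : D ≤ j * D := Nat.le_mul_of_pos_left D hj1
  have h2 : j * D - D = (j - 1) * D := by rw [Nat.sub_mul, one_mul]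
  have h3 := hQ (Wd θ (j * D)) inferInstance (finrank Qa (Wd θ ((j - 1) * D)))
    (fun i => by
      obtain ⟨A, B, hA, hB, hB0, hAB⟩ := h i
      rw [← h2]
      exact le_Vx_Wd θ h1 (x i) A B hA hB hB0 hAB)
  have h4 := one_le_finrank_Wd θ ((j - 1) * D)
  have h5 : finrank Qa (Wd θ (j * D)) ≤ (J * D + 1) ^ m :=
    (finrank_Wd_le θ _).trans (Nat.pow_le_pow_left (by
      have := Nat.mul_le_mul_right D hjJ
      omega) m)
  change finrank Qa (Wd θ (j * D)) ≤ 2 * finrank Qa (Wd θ ((j - 1) * D)) at hj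
  set a := finrank Qa (Wd θ (j * D))
  set b := finrank Qa (Wd θ ((j - 1) * D))
  have h6 : N * b ≤ (2 * a) * b := by nlinarith
  have h7 := Nat.le_of_mul_le_mul_right h6 h4
  omega

theorem linearIndependent_pow {t : ℂ} (ht : t ∉ Qa) (n : ℕ) :
    LinearIndependent Qa (fun i : Fin n => t ^ (i : ℕ)) := by
  have h1 : Transcendental Qa t := by
    intro h
    have hQa : Algebra.IsAlgebraic ℚ Qa := algebraicClosure.isAlgebraic ℚ ℂ
    have h2 : IsAlgebraic ℚ t := IsAlgebraic.restrictScalars ℚ h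
    exact ht (mem_algebraicClosure_iff.2 h2)
  have h2 : Function.Injective (Polynomial.aeval t : Polynomial Qa →ₐ[Qa] ℂ) :=
    transcendental_iff_injective.1 h1
  have h3 := (Polynomial.basisMonomials Qa).linearIndependent.map'
    (Polynomial.aeval t : Polynomial Qa →ₐ[Qa] ℂ).toLinearMap (LinearMap.ker_eq_bot.2 h2)
  have h4 := h3.comp (fun i : Fin n => (i : ℕ)) Fin.val_injective
  have h5 : (fun i : Fin n => t ^ (i : ℕ)) = ((Polynomial.aeval t :
      Polynomial Qa →ₐ[Qa] ℂ).toLinearMap ∘ Polynomial.basisMonomials Qa) ∘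
        fun i : Fin n => (i : ℕ) := by
    funext i
    simp
  rw [h5]
  exact h4

theorem le_finrank_Wd {θ : Fin 1 → ℂ} (h : θ 0 ∉ Qa) (M : ℕ) : M + 1 ≤ finrank Qa (Wd θ M) := by
  have h1 := linearIndependent_pow h (M + 1)
  have h2 := finrank_span_eq_card h1
  rw [Fintype.card_fin] at h2
  rw [← h2]
  refine Submodule.finrank_mono (Submodule.span_le.2 ?_)
  rintro _ ⟨i, rfl⟩
  refine (mem_Wd θ M _).2 ⟨X 0 ^ (i : ℕ), ?_, by simp⟩
  rw [totalDegree_X_pow]
  have := i.2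
  omega

/-- (R) for one number, from (Q). -/
theorem ratio_one {N D : ℕ} (hD : 1 ≤ D) (x : Fin N → ℂ)
    (hQ : ∀ W : Submodule Qa ℂ, FiniteDimensional Qa W → ∀ r : ℕ,
      (∀ i, r ≤ finrank Qa ↥(Vx W (x i))) → N * r ≤ finrank Qa W ^ 2) (θ : Fin 1 → ℂ)
    (h : ∀ i, ∃ A B : MvPolynomial (Fin 1) Qa, A.totalDegree ≤ D ∧ B.totalDegree ≤ D ∧
      aeval θ B ≠ 0 ∧ aeval θ B * x i = aeval θ A) :
    N ≤ 4 * D := by
  by_cases hθ : θ 0 ∈ Qa
  · have h0 : ∀ p : MvPolynomial (Fin 1) Qa, aeval θ p ∈ Qa := by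
      intro p
      obtain ⟨y, hy⟩ : ∃ y : Fin 1 → Qa, θ = fun i => algebraMap Qa ℂ (y i) :=
        ⟨fun _ => ⟨θ 0, hθ⟩, by
          funext i
          rw [Subsingleton.elim i 0]
          rfl⟩
      rw [hy]
      change aeval (algebraMap Qa ℂ ∘ y) p ∈ Qa
      rw [aeval_algebraMap_apply]
      exact Subtype.prop _
    have hfd : FiniteDimensional Qa ↥(Submodule.span Qa {(1 : ℂ)}) :=
      FiniteDimensional.span_singleton Qa 1
    have h1 := hQ (Submodule.span Qa {(1 : ℂ)}) hfd 1 (fun i => by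
      obtain ⟨A, B, -, -, hB0, hAB⟩ := h i
      have hx : x i ∈ Qa := by
        have : x i = aeval θ A / aeval θ B := by
          rw [eq_div_iff hB0, ← hAB]; ring
        rw [this]
        exact div_mem (h0 A) (h0 B)
      have h2 : (1 : ℂ) ∈ Vx (Submodule.span Qa {(1 : ℂ)}) (x i) := by
        refine ⟨Submodule.subset_span rfl, ?_⟩
        rw [SetLike.mem_coe, Submodule.mem_comap, LinearMap.mulLeft_apply]
        exact Submodule.mem_span_singleton.2 ⟨⟨x i, hx⟩, by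
          rw [Algebra.smul_def, mul_one, mul_one]; rfl⟩
      have hfd' : FiniteDimensional Qa ↥(Vx (Submodule.span Qa {(1 : ℂ)}) (x i)) :=
        Submodule.finiteDimensional_of_le inf_le_left
      rw [Nat.one_le_iff_ne_zero]
      intro h3
      rw [(Submodule.finrank_eq_zero).1 h3, Submodule.mem_bot] at h2
      exact one_ne_zero h2)
    have h3 : finrank Qa ↥(Submodule.span Qa {(1 : ℂ)}) ≤ 1 := by
      rw [finrank_span_singleton one_ne_zero]
    nlinarith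
  · have h1 := hQ (Wd θ (2 * D - 1)) inferInstance D (fun i => by
      obtain ⟨A, B, hA, hB, hB0, hAB⟩ := h i
      refine le_trans ?_ (le_Vx_Wd θ (M := 2 * D - 1) (D := D) (by omega) (x i) A B hA hB hB0 hAB)
      have := le_finrank_Wd hθ (2 * D - 1 - D)
      omega)
    have h2 := finrank_Wd_le θ (2 * D - 1)
    rw [pow_one, show 2 * D - 1 + 1 = 2 * D by omega] at h2
    have h3 : N * D ≤ (4 * D) * D := by nlinarith
    exact Nat.le_of_mul_le_mul_right h3 hD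

end MP60829e.QT
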