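import Pool.Agent.Lib.MP_60829e_nt.QT.Rat

/-!
# Tuples of given logarithms (MP_60829e_nt, note of helper44, Dec 4)

`W` is a space of complex numbers of dimension at most `w` over the algebraic numbers. Relations
between `s` of the numbers `x i` which are given by a nonzero polynomial of degree at most one in
each variable, with coefficients in `W`, hold for few `s`-tuples.
-/

open Module MvPolynomial

namespace MP60829e.QT

open MP60829e.ST (Qa Lsp Lt)

/-- Counting pairs by their first components. -/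
theorem fiber_bound {α β : Type} [Fintype α] [DecidableEq α] [DecidableEq β] (T : Finset (α × β))
    (c : ℕ) (h : ∀ i, ∀ s : Finset β, (∀ j ∈ s, (i, j) ∈ T) → s.card ≤ c) :
    T.card ≤ c * Fintype.card α := by
  rw [Finset.card_eq_sum_card_fiberwise (f := Prod.fst) (t := Finset.univ)
    (fun _ _ => Finset.mem_coe.2 (Finset.mem_univ _))]
  refine (Finset.sum_le_card_nsmul Finset.univ _ c fun i _ => ?_).trans ?_
  · have h1 : ((T.filter fun p => p.1 = i).image Prod.snd).card
        = (T.filter fun p => p.1 = i).card := by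
      refine Finset.card_image_of_injOn ?_
      rintro ⟨a, b⟩ hab ⟨a', b'⟩ hab' hbb
      simp only [Finset.coe_filter, Set.mem_setOf_eq] at hab hab'
      simp only at hbb
      rw [hab.2, hab'.2, hbb]
    rw [← h1]
    refine h i _ fun j hj => ?_
    simp only [Finset.mem_image, Finset.mem_filter, Prod.exists] at hj
    obtain ⟨a, b, ⟨hab, rfl⟩, rfl⟩ := hj
    exact hab
  · rw [Finset.card_univ, smul_eq_mul, mul_comm]

/-- A quotient of elements of `W`. -/
theorem one_le_Vx {W : Submodule Qa ℂ} [FiniteDimensional Qa W] {x A B : ℂ} (hA : A ∈ W)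
    (hB : B ∈ W) (hB0 : B ≠ 0) (h : B * x = A) : 1 ≤ finrank Qa ↥(Vx W x) := by
  have h2 : B ∈ Vx W x := by
    refine ⟨hB, ?_⟩
    rw [SetLike.mem_coe, Submodule.mem_comap, LinearMap.mulLeft_apply, mul_comm, h]
    exact hA
  have hfd' : FiniteDimensional Qa ↥(Vx W x) := Submodule.finiteDimensional_of_le inf_le_left
  rw [Nat.one_le_iff_ne_zero]
  intro h3
  rw [(Submodule.finrank_eq_zero).1 h3, Submodule.mem_bot] at h2
  exact hB0 h2

/-- The polynomials of degree at most one in each variable, with coefficients in `W`. -/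
def ML (W : Submodule Qa ℂ) (s : ℕ) (P : MvPolynomial (Fin s) ℂ) : Prop :=
  (∀ t, P.degreeOf t ≤ 1) ∧ ∀ e, P.coeff e ∈ W

/-- Their values at `y`. -/
noncomputable def Wy (W : Submodule Qa ℂ) {s : ℕ} (y : Fin s → ℂ) : Submodule Qa ℂ :=
  ⨆ a : Fin s → Fin 2, W.map (LinearMap.mulLeft Qa (∏ i, y i ^ (a i : ℕ)))

theorem iSup_fin {ι : Type} [Fintype ι] (f : ι → Submodule Qa ℂ)
    (hf : ∀ i, FiniteDimensional Qa (f i)) (w : ℕ) (hw : ∀ i, finrank Qa (f i) ≤ w) :
    FiniteDimensional Qa ↥(⨆ i, f i) ∧ finrank Qa ↥(⨆ i, f i) ≤ Fintype.card ι * w := by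
  classical
  have h : ∀ t : Finset ι, FiniteDimensional Qa ↥(t.sup f) ∧
      finrank Qa ↥(t.sup f) ≤ t.card * w := by
    intro t
    induction t using Finset.induction_on with
    | empty =>
      rw [Finset.sup_empty]
      exact ⟨inferInstance, by simp⟩
    | insert i t hi ih =>
      obtain ⟨ih1, ih2⟩ := ih
      have := hf i
      rw [Finset.sup_insert, Finset.card_insert_of_notMem hi]
      refine ⟨inferInstance, ?_⟩
      have h1 := Submodule.finrank_sup_add_finrank_inf_eq (f i) (t.sup f)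
      have h2 := hw i
      have h3 : (t.card + 1) * w = t.card * w + w := by ring
      omega
  have h1 := h Finset.univ
  rwa [Finset.sup_univ_eq_iSup, Finset.card_univ] at h1

theorem Wy_fin (W : Submodule Qa ℂ) [FiniteDimensional Qa W] {s : ℕ} (y : Fin s → ℂ) :
    FiniteDimensional Qa (Wy W y) ∧ finrank Qa (Wy W y) ≤ 2 ^ s * finrank Qa W := by
  have h := iSup_fin (fun a : Fin s → Fin 2 => W.map (LinearMap.mulLeft Qa (∏ i, y i ^ (a i : ℕ))))
    (fun a => inferInstance) (finrank Qa W) (fun a => finrank_map_le W _)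
  rwa [Fintype.card_fun, Fintype.card_fin, Fintype.card_fin] at h

theorem eval_mem_Wy {W : Submodule Qa ℂ} {s : ℕ} (y : Fin s → ℂ) {P : MvPolynomial (Fin s) ℂ}
    (hP : ML W s P) : eval y P ∈ Wy W y := by
  rw [eval_eq']
  refine Submodule.sum_mem _ fun e he => ?_
  have h1 : ∀ i, e i ≤ 1 := fun i => (monomial_le_degreeOf i he).trans (hP.1 i)
  have h2 : W.map (LinearMap.mulLeft Qa (∏ i, y i ^ e i)) ≤ Wy W y := by
    have := le_iSup (fun a : Fin s → Fin 2 =>
      W.map (LinearMap.mulLeft Qa (∏ i, y i ^ (a i : ℕ))))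
      (fun i => ⟨e i, by have := h1 i; omega⟩)
    exact this
  refine h2 ⟨P.coeff e, hP.2 e, ?_⟩
  rw [LinearMap.mulLeft_apply, mul_comm]

/-- A polynomial of degree at most one in the first variable. -/
theorem eval_cons_one {s : ℕ} (x : ℂ) (y : Fin s → ℂ) (P : MvPolynomial (Fin (s + 1)) ℂ)
    (hP : P.degreeOf 0 ≤ 1) :
    eval (Fin.cons x y : Fin (s + 1) → ℂ) P
      = eval y ((finSuccEquiv ℂ s P).coeff 1) * x + eval y ((finSuccEquiv ℂ s P).coeff 0) := by
  rw [eval_eq_eval_mv_eval', Polynomial.eval_eq_sum_range' (n := 2)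
    (lt_of_le_of_lt Polynomial.natDegree_map_le (by rw [natDegree_finSuccEquiv]; omega)),
    Finset.sum_range_succ, Finset.sum_range_one]
  simp only [Polynomial.coeff_map, pow_zero, mul_one, pow_one]
  rw [add_comm]

/-- The tuple satisfies a relation. -/
def Bad {N : ℕ} (x : Fin N → ℂ) (W : Submodule Qa ℂ) {s : ℕ} (j : Fin s → Fin N) : Prop :=
  ∃ P : MvPolynomial (Fin s) ℂ, P ≠ 0 ∧ ML W s P ∧ eval (fun t => x (j t)) P = 0

theorem bad_aux {N : ℕ} (x : Fin N → ℂ)
    (hQ : ∀ W : Submodule Qa ℂ, FiniteDimensional Qa W → ∀ r : ℕ, ∀ s : Finset (Fin N),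
      (∀ i ∈ s, r ≤ finrank Qa ↥(Vx W (x i))) → s.card * r ≤ finrank Qa W ^ 2)
    (W : Submodule Qa ℂ) [FiniteDimensional Qa W] (w : ℕ) (hw : finrank Qa W ≤ w) (s : ℕ) :
    ∀ T : Finset (Fin s → Fin N), (∀ j ∈ T, Bad x W j) →
      3 * T.card * N + w ^ 2 * N ^ s ≤ w ^ 2 * 4 ^ s * N ^ s := by
  classical
  induction s with
  | zero =>
    intro T hT
    have h0 : T = ∅ := by
      rw [Finset.eq_empty_iff_forall_notMem]
      intro i hi
      obtain ⟨P, hP, -, h⟩ := hT i hi
      rw [eq_C_of_isEmpty P] at h hP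
      rw [eval_C] at h
      apply hP
      rw [h, map_zero]
    subst h0
    simp
  | succ s ih =>
    intro T hT
    set T1 : Finset (Fin s → Fin N) := Finset.univ.filter fun i => Bad x W i with hT1
    have h1 := ih T1 (fun i hi => (Finset.mem_filter.1 hi).2)
    set T2 : Finset ((Fin s → Fin N) × Fin N) := T.image fun i => (Fin.tail i, i 0) with hT2
    have hcard : T2.card = T.card := by
      refine Finset.card_image_of_injective T ?_
      intro a b hab
      simp only [Prod.mk.injEq] at hab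
      rw [← Fin.cons_self_tail a, ← Fin.cons_self_tail b, hab.1, hab.2]
    have h2 : (T2.filter fun p => p.1 ∈ T1).card ≤ T1.card * N := by
      have : (T2.filter fun p => p.1 ∈ T1) ⊆ T1 ×ˢ (Finset.univ : Finset (Fin N)) := by
        intro p hp
        rw [Finset.mem_product]
        exact ⟨(Finset.mem_filter.1 hp).2, Finset.mem_univ _⟩
      have h3 := Finset.card_le_card this
      rwa [Finset.card_product, Finset.card_univ, Fintype.card_fin] at h3
    have h3 : (T2.filter fun p => ¬ p.1 ∈ T1).card ≤ w ^ 2 * 4 ^ s * N ^ s := by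
      have h4 := fiber_bound (T2.filter fun p => ¬ p.1 ∈ T1) (w ^ 2 * 4 ^ s) ?_
      · rwa [Fintype.card_fun, Fintype.card_fin, Fintype.card_fin] at h4
      intro i u hu
      obtain ⟨hfd, h6⟩ := Wy_fin W (fun t => x (i t))
      have h5 := hQ (Wy W (fun t => x (i t))) hfd 1 u ?_
      · have h7 : (2 ^ s * w) ^ 2 = w ^ 2 * (4 : ℕ) ^ s := by
          rw [mul_pow, ← pow_mul, mul_comm s 2, pow_mul]
          norm_num [mul_comm]
        rw [mul_one] at h5
        rw [← h7]
        exact h5.trans (Nat.pow_le_pow_left (h6.trans (Nat.mul_le_mul_left _ hw)) 2)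
      intro j hj
      have h6 := hu j hj
      rw [Finset.mem_filter] at h6
      obtain ⟨h6, h7⟩ := h6
      simp only at h7
      have hgood : ¬ Bad x W i := fun h => h7 (Finset.mem_filter.2 ⟨Finset.mem_univ _, h⟩)
      rw [hT2, Finset.mem_image] at h6
      obtain ⟨v, hv, hvi⟩ := h6
      simp only [Prod.mk.injEq] at hvi
      obtain ⟨P, hP, hML, hP0⟩ := hT v hv
      have h8 : (fun t => x (v t)) = (Fin.cons (x j) (fun t => x (i t)) : Fin (s + 1) → ℂ) := by
        rw [← Fin.cons_self_tail v, hvi.1, hvi.2]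
        funext t
        refine Fin.cases ?_ (fun t => ?_) t <;> simp
      rw [h8, eval_cons_one _ _ _ (hML.1 0)] at hP0
      have hA : ∀ e, ML W s ((finSuccEquiv ℂ s P).coeff e) := fun e =>
        ⟨fun t => (degreeOf_coeff_finSuccEquiv P t e).trans (hML.1 _), fun d => by
          rw [finSuccEquiv_coeff_coeff]
          exact hML.2 _⟩
      have hB0 : eval (fun t => x (i t)) ((finSuccEquiv ℂ s P).coeff 1) ≠ 0 := by
        intro hB
        rw [hB, zero_mul, zero_add] at hP0
        have hz : ∀ e, eval (fun t => x (i t)) ((finSuccEquiv ℂ s P).coeff e) = 0 →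
            (finSuccEquiv ℂ s P).coeff e = 0 := by
          intro e he
          by_contra hne
          exact hgood ⟨_, hne, hA e, he⟩
        have hz0 := hz 0 hP0
        have hz1 := hz 1 hB
        apply hP
        have : finSuccEquiv ℂ s P = 0 := by
          ext1 e
          rw [Polynomial.coeff_zero]
          rcases e with _ | _ | e
          · exact hz0
          · exact hz1
          · refine Polynomial.coeff_eq_zero_of_natDegree_lt ?_
            rw [natDegree_finSuccEquiv]
            have := hML.1 0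
            omega
        exact (map_eq_zero_iff _ (finSuccEquiv ℂ s).injective).1 this
      refine one_le_Vx (Submodule.neg_mem _ (eval_mem_Wy _ (hA 0))) (eval_mem_Wy _ (hA 1)) hB0 ?_
      linear_combination hP0
    have h4 := Finset.card_filter_add_card_filter_not (s := T2) (fun p => p.1 ∈ T1)
    have h5 : T.card ≤ T1.card * N + w ^ 2 * 4 ^ s * N ^ s := by omega
    calc 3 * T.card * N + w ^ 2 * N ^ (s + 1)
        ≤ 3 * (T1.card * N + w ^ 2 * 4 ^ s * N ^ s) * N + w ^ 2 * N ^ (s + 1) := by gcongr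
      _ = N * (3 * T1.card * N + w ^ 2 * N ^ s) + 3 * w ^ 2 * 4 ^ s * N ^ (s + 1) := by ring
      _ ≤ N * (w ^ 2 * 4 ^ s * N ^ s) + 3 * w ^ 2 * 4 ^ s * N ^ (s + 1) := by gcongr
      _ = w ^ 2 * 4 ^ (s + 1) * N ^ (s + 1) := by ring

/-- The relations between `s + 1` of the numbers `x i`, for a given `W`. -/
theorem bad_bound {N : ℕ} (x : Fin N → ℂ)
    (hQ : ∀ W : Submodule Qa ℂ, FiniteDimensional Qa W → ∀ r : ℕ, ∀ s : Finset (Fin N),
      (∀ i ∈ s, r ≤ finrank Qa ↥(Vx W (x i))) → s.card * r ≤ finrank Qa W ^ 2)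
    (W : Submodule Qa ℂ) [FiniteDimensional Qa W] (w : ℕ) (hw : finrank Qa W ≤ w) (s : ℕ)
    (T : Finset (Fin (s + 1) → Fin N)) (hT : ∀ j ∈ T, Bad x W j) :
    3 * T.card + w ^ 2 * N ^ s ≤ w ^ 2 * 4 ^ (s + 1) * N ^ s := by
  have h := bad_aux x hQ W w hw (s + 1) T hT
  rcases Nat.eq_zero_or_pos N with rfl | hN
  · have : T.card = 0 := by
      have h1 := Finset.card_le_univ T
      rw [Fintype.card_fun, Fintype.card_fin, Fintype.card_fin, zero_pow (Nat.succ_ne_zero s)]
        at h1
      omega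
    rw [this]
    have : 1 ≤ 4 ^ (s + 1) := Nat.one_le_pow _ _ (by norm_num)
    calc 3 * 0 + w ^ 2 * 0 ^ s = w ^ 2 * 1 * 0 ^ s := by ring
      _ ≤ w ^ 2 * 4 ^ (s + 1) * 0 ^ s := by gcongr
  · have h2 : (3 * T.card + w ^ 2 * N ^ s) * N ≤ (w ^ 2 * 4 ^ (s + 1) * N ^ s) * N := by
      calc (3 * T.card + w ^ 2 * N ^ s) * N = 3 * T.card * N + w ^ 2 * N ^ (s + 1) := by ring
        _ ≤ w ^ 2 * 4 ^ (s + 1) * N ^ (s + 1) := h
        _ = (w ^ 2 * 4 ^ (s + 1) * N ^ s) * N := by ring
    exact Nat.le_of_mul_le_mul_right h2 hN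

end MP60829e.QT
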